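import Pool.Agent.Lib.MP_34521c_al.Ins.Colouring

set_option autoImplicit false
open Pointwise

/-!
MP_34521c_al, Q1 (covering numbers for partitions of groups with commuting cells): the negative
answer for every number `n ≥ 4` of cells, with covering numbers which grow exponentially in `n`.
-/

namespace Pool.Agent.Results.MP_34521c_al.ExponentialCovering

open Pool.Agent.MP34521cIns

/-- For every `n ≥ 2` the free group of countable rank has a partition into `n` nonempty cells
such that all products `A i * A j` are the whole group and no cell satisfies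
`cov (A i * (A i)⁻¹) ≤ 2 ^ (n - 2)`; and `n ≤ 2 ^ (n - 2)` for `n ≥ 4`. -/
theorem result :
    (∀ n : ℕ, 2 ≤ n → ∃ A : Fin n → Set (FreeGroup ℕ),
      (∀ i, (A i).Nonempty) ∧
      Pairwise (fun i j => Disjoint (A i) (A j)) ∧
      (⋃ i, A i) = Set.univ ∧
      (∀ i j, A i * A j = Set.univ) ∧
      ∀ (i : Fin n) (F : Finset (FreeGroup ℕ)), F.card ≤ 2 ^ (n - 2) →
        (F : Set (FreeGroup ℕ)) * (A i * (A i)⁻¹) ≠ Set.univ) ∧
    ∀ n : ℕ, 4 ≤ n → n ≤ 2 ^ (n - 2) := by
  classical
  constructor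
  swap
  · intro n hn
    obtain ⟨m, rfl⟩ := Nat.exists_eq_add_of_le hn
    have e : 4 + m - 2 = m + 2 := by omega
    rw [e]
    clear hn e
    induction m with
    | zero => simp
    | succ m ih => rw [show m + 1 + 2 = (m + 2) + 1 from rfl, pow_succ]; omega
  intro n hn
  obtain ⟨k, rfl⟩ : ∃ k, n = k + 2 := ⟨n - 2, by omega⟩
  have e2 : k + 2 - 2 = k := by omega
  rw [e2]
  obtain ⟨d, hd⟩ := exists_colouring k
  have hprod : ∀ i j : Fin (k + 2), ({g : FreeGroup ℕ | d g = i} * {g : FreeGroup ℕ | d g = j} :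
      Set (FreeGroup ℕ)) = Set.univ := by
    intro i j
    ext g
    simp only [Set.mem_univ, iff_true]
    obtain ⟨h1, h2⟩ : VP d (g, i, j) := hd (Sum.inr (g, i, j))
    exact ⟨_, h1, _, h2, by simp⟩
  refine ⟨fun i => {g | d g = i}, ?_, ?_, ?_, hprod, ?_⟩
  · intro i
    have h : (1 : FreeGroup ℕ) ∈ ({g : FreeGroup ℕ | d g = i} * {g : FreeGroup ℕ | d g = i} :
      Set (FreeGroup ℕ)) := by rw [hprod]; trivial
    obtain ⟨a, ha, _⟩ := h
    exact ⟨a, ha⟩
  · intro i j hij
    refine Set.disjoint_left.2 ?_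
    intro g hg hg'
    exact hij (hg.symm.trans hg')
  · ext g
    simp
  · intro i F hF hU
    set S : Finset (FreeGroup ℕ) := F.image (fun f => f⁻¹) with hS
    have hSc : S.card ≤ 2 ^ k := Finset.card_image_le.trans hF
    have ht : (FreeGroup.of (lab (k := k) (Sum.inl (i, S))))⁻¹ ∈
        ((F : Set (FreeGroup ℕ)) * ({g | d g = i} * ({g | d g = i})⁻¹) :
          Set (FreeGroup ℕ)) := by
      rw [hU]; trivial
    obtain ⟨f, hf, c, hc, hfc⟩ := ht
    obtain ⟨a, ha, b, hb, hab⟩ := hc
    have hV : VC d (f * a, i, S) := hd (Sum.inl (f * a, i, S))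
    refine hV hSc f⁻¹ ?_ ⟨?_, ?_⟩
    · rw [hS]; exact Finset.mem_image_of_mem _ hf
    · have e : FreeGroup.of (lab (k := k) (Sum.inl (i, S))) * (f * a) = b⁻¹ := by
        have h1 : f * (a * b) = (FreeGroup.of (lab (k := k) (Sum.inl (i, S))))⁻¹ := by
          rw [← hfc, ← hab]
        have h2 : f * a = (FreeGroup.of (lab (k := k) (Sum.inl (i, S))))⁻¹ * b⁻¹ := by
          rw [← h1]; group
        rw [h2]; group
      change d (FreeGroup.of (lab (k := k) (Sum.inl (i, S))) * (f * a)) = i
      rw [e]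
      exact hb
    · change d (f⁻¹ * (f * a)) = i
      rw [inv_mul_cancel_left]
      exact ha

end Pool.Agent.Results.MP_34521c_al.ExponentialCovering
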